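import Mathlib

/-!
# The operator `T` (section 1)

`T pm nb w h = w h + pm * ∑ h' ∈ nb h, w h'`.
-/

set_option autoImplicit false
set_option linter.unusedSectionVars false

namespace Pool.Agent.Vu

open scoped Classical

variable {X : Type*} [Fintype X]

/-- the operator `T` -/
noncomputable def T (pm : ℝ) (nb : X → Finset X) (w : X → ℝ) : X → ℝ :=
  fun h => w h + pm * ∑ h' ∈ nb h, w h'

/-- iterates of `T` -/
noncomputable def TT (pm : ℝ) (nb : X → Finset X) (j : ℕ) (w : X → ℝ) : X → ℝ := (T pm nb)^[j] w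

/-- indicator function of a set of pairs -/
noncomputable def ind (S : Set X) : X → ℝ := fun h => if h ∈ S then 1 else 0

variable {pm : ℝ} {nb : X → Finset X}

@[simp] lemma TT_zero (w : X → ℝ) : TT pm nb 0 w = w := rfl

lemma TT_succ (j : ℕ) (w : X → ℝ) : TT pm nb (j + 1) w = T pm nb (TT pm nb j w) := by
  unfold TT
  rw [Function.iterate_succ_apply']

lemma TT_succ' (j : ℕ) (w : X → ℝ) : TT pm nb (j + 1) w = TT pm nb j (T pm nb w) := by
  unfold TT
  rw [Function.iterate_succ_apply]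

lemma T_mono (hpm : 0 ≤ pm) {w w' : X → ℝ} (h : ∀ x, w x ≤ w' x) (x : X) :
    T pm nb w x ≤ T pm nb w' x := by
  unfold T
  exact add_le_add (h x) (mul_le_mul_of_nonneg_left (Finset.sum_le_sum fun y _ => h y) hpm)

lemma TT_mono (hpm : 0 ≤ pm) {w w' : X → ℝ} (h : ∀ x, w x ≤ w' x) (j : ℕ) (x : X) :
    TT pm nb j w x ≤ TT pm nb j w' x := by
  induction j generalizing x with
  | zero => exact h x
  | succ j ih => rw [TT_succ, TT_succ]; exact T_mono hpm ih x

lemma T_nonneg (hpm : 0 ≤ pm) {w : X → ℝ} (hw : ∀ x, 0 ≤ w x) (x : X) : 0 ≤ T pm nb w x := by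
  unfold T
  exact add_nonneg (hw x) (mul_nonneg hpm (Finset.sum_nonneg fun y _ => hw y))

lemma TT_nonneg (hpm : 0 ≤ pm) {w : X → ℝ} (hw : ∀ x, 0 ≤ w x) (j : ℕ) (x : X) :
    0 ≤ TT pm nb j w x := by
  induction j generalizing x with
  | zero => exact hw x
  | succ j ih => rw [TT_succ]; exact T_nonneg hpm ih x

lemma le_T (hpm : 0 ≤ pm) {w : X → ℝ} (hw : ∀ x, 0 ≤ w x) (x : X) : w x ≤ T pm nb w x := by
  unfold T
  exact le_add_of_nonneg_right (mul_nonneg hpm (Finset.sum_nonneg fun y _ => hw y))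

lemma TT_le_succ (hpm : 0 ≤ pm) {w : X → ℝ} (hw : ∀ x, 0 ≤ w x) (j : ℕ) (x : X) :
    TT pm nb j w x ≤ TT pm nb (j + 1) w x := by
  rw [TT_succ]
  exact le_T hpm (TT_nonneg hpm hw j) x

lemma TT_le_of_le (hpm : 0 ≤ pm) {w : X → ℝ} (hw : ∀ x, 0 ≤ w x) {i j : ℕ} (hij : i ≤ j) (x : X) :
    TT pm nb i w x ≤ TT pm nb j w x :=
  monotone_nat_of_le_succ (f := fun j => TT pm nb j w x) (fun j => TT_le_succ hpm hw j x) hij

lemma T_sum {J : Type*} (s : Finset J) (c : J → ℝ) (w : J → X → ℝ) (x : X) :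
    T pm nb (fun y => ∑ j ∈ s, c j * w j y) x = ∑ j ∈ s, c j * T pm nb (w j) x := by
  unfold T
  rw [Finset.sum_comm, Finset.mul_sum, ← Finset.sum_add_distrib]
  refine Finset.sum_congr rfl fun j _ => ?_
  rw [← Finset.mul_sum]
  ring

/-- linearity of the iterates -/
lemma TT_sum {J : Type*} (s : Finset J) (c : J → ℝ) (w : J → X → ℝ) (k : ℕ) (x : X) :
    TT pm nb k (fun y => ∑ j ∈ s, c j * w j y) x = ∑ j ∈ s, c j * TT pm nb k (w j) x := by
  induction k generalizing x with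
  | zero => rfl
  | succ k ih =>
    rw [TT_succ]
    have h : TT pm nb k (fun y => ∑ j ∈ s, c j * w j y) =
        fun y => ∑ j ∈ s, c j * TT pm nb k (w j) y := funext ih
    rw [h, T_sum]
    refine Finset.sum_congr rfl fun j _ => ?_
    rw [TT_succ]

/-- `T^m w = w + ∑_{j<m} pm * A (T^j w)` -/
lemma TT_eq_add (m : ℕ) (w : X → ℝ) (x : X) :
    TT pm nb m w x = w x + pm * ∑ j ∈ Finset.range m, ∑ y ∈ nb x, TT pm nb j w y := by
  induction m with
  | zero => simp
  | succ m ih =>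
    rw [TT_succ, Finset.sum_range_succ]
    unfold T
    rw [ih]
    ring

lemma sum_nb_comm (hsym : ∀ x y, y ∈ nb x ↔ x ∈ nb y) (w : X → ℝ) :
    ∑ x, ∑ y ∈ nb x, w y = ∑ y, ((nb y).card : ℝ) * w y := by
  have h1 : ∀ x, ∑ y ∈ nb x, w y = ∑ y, if y ∈ nb x then w y else 0 := by
    intro x
    rw [← Finset.sum_filter]
    congr 1
    ext y
    simp
  simp only [h1]
  rw [Finset.sum_comm]
  refine Finset.sum_congr rfl fun y _ => ?_
  have h2 : ∀ x, (if y ∈ nb x then w y else 0) = if x ∈ nb y then w y else 0 := by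
    intro x
    by_cases h : y ∈ nb x
    · rw [if_pos h, if_pos ((hsym x y).1 h)]
    · rw [if_neg h, if_neg fun h' => h ((hsym x y).2 h')]
  simp only [h2]
  rw [← Finset.sum_filter, Finset.sum_const, nsmul_eq_mul]
  congr 2
  congr 1
  ext x
  simp

/-- (1.1) -/
theorem sum_TT_le (hpm : 0 ≤ pm) (hsym : ∀ x y, y ∈ nb x ↔ x ∈ nb y) {D : ℝ}
    (hD : ∀ x, ((nb x).card : ℝ) ≤ D) {w : X → ℝ} (hw : ∀ x, 0 ≤ w x) (j : ℕ) :
    ∑ x, TT pm nb j w x ≤ (1 + pm * D) ^ j * ∑ x, w x := by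
  induction j with
  | zero => simp
  | succ j ih =>
    have h0 := TT_nonneg (nb := nb) hpm hw j
    have h1 : ∑ x, TT pm nb (j + 1) w x ≤ (1 + pm * D) * ∑ x, TT pm nb j w x := by
      have h2 : ∑ x, TT pm nb (j + 1) w x =
          ∑ x, TT pm nb j w x + pm * ∑ y, ((nb y).card : ℝ) * TT pm nb j w y := by
        rw [← sum_nb_comm hsym, Finset.mul_sum, ← Finset.sum_add_distrib]
        refine Finset.sum_congr rfl fun x _ => ?_
        rw [TT_succ]; rfl
      have h3 : ∑ y, ((nb y).card : ℝ) * TT pm nb j w y ≤ D * ∑ y, TT pm nb j w y := by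
        rw [Finset.mul_sum]
        exact Finset.sum_le_sum fun y _ => mul_le_mul_of_nonneg_right (hD y) (h0 y)
      rw [h2]
      nlinarith
    by_cases hX : Nonempty X
    · obtain ⟨x0⟩ := hX
      have hD0 : 0 ≤ D := le_trans (Nat.cast_nonneg _) (hD x0)
      calc ∑ x, TT pm nb (j + 1) w x ≤ (1 + pm * D) * ∑ x, TT pm nb j w x := h1
        _ ≤ (1 + pm * D) * ((1 + pm * D) ^ j * ∑ x, w x) :=
          mul_le_mul_of_nonneg_left ih (by positivity)
        _ = (1 + pm * D) ^ (j + 1) * ∑ x, w x := by ring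
    · haveI := not_nonempty_iff.1 hX
      simp

/-- (1.2) -/
theorem TT_le_sup (hpm : 0 ≤ pm) {D : ℝ} (hD0 : 0 ≤ D) (hD : ∀ x, ((nb x).card : ℝ) ≤ D)
    {w : X → ℝ} {c : ℝ} (hc : 0 ≤ c) (hwc : ∀ x, w x ≤ c) (j : ℕ) (x : X) :
    TT pm nb j w x ≤ (1 + pm * D) ^ j * c := by
  induction j generalizing x with
  | zero => simpa using hwc x
  | succ j ih =>
    rw [TT_succ]
    unfold T
    have h1 : ∑ y ∈ nb x, TT pm nb j w y ≤ D * ((1 + pm * D) ^ j * c) := by
      have h2 : ∑ y ∈ nb x, TT pm nb j w y ≤ ∑ _y ∈ nb x, (1 + pm * D) ^ j * c :=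
        Finset.sum_le_sum fun y _ => ih y
      rw [Finset.sum_const, nsmul_eq_mul] at h2
      exact h2.trans (mul_le_mul_of_nonneg_right (hD x) (by positivity))
    have h3 := ih x
    have h4 := mul_le_mul_of_nonneg_left h1 hpm
    calc TT pm nb j w x + pm * ∑ y ∈ nb x, TT pm nb j w y
        ≤ (1 + pm * D) ^ j * c + pm * (D * ((1 + pm * D) ^ j * c)) := add_le_add h3 h4
      _ = (1 + pm * D) ^ (j + 1) * c := by ring

/-- (1.3) -/
theorem TT_fib_le (hpm : 0 ≤ pm) {D : ℝ} (hD0 : 0 ≤ D) (hD : ∀ x, ((nb x).card : ℝ) ≤ D)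
    {F : Set X} (hF : ∀ x, x ∉ F → ((nb x).filter (fun y => y ∈ F)).card ≤ 1) (j : ℕ) (x : X)
    (hx : x ∉ F) : TT pm nb j (ind F) x ≤ j * pm * (1 + pm * D) ^ j := by
  have hi0 : ∀ x, 0 ≤ ind F x := fun x => by unfold ind; split_ifs <;> norm_num
  have hi1 : ∀ x, ind F x ≤ 1 := fun x => by unfold ind; split_ifs <;> norm_num
  induction j generalizing x with
  | zero => simp [ind, hx]
  | succ j ih =>
    rw [TT_succ]
    unfold T
    have hP : (0:ℝ) ≤ (1 + pm * D) ^ j := by positivity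
    have h1 : ∑ y ∈ nb x, TT pm nb j (ind F) y ≤
        (1 + pm * D) ^ j + D * (j * pm * (1 + pm * D) ^ j) := by
      rw [← Finset.sum_filter_add_sum_filter_not (nb x) (fun y => y ∈ F)]
      refine add_le_add ?_ ?_
      · have h2 : ∑ y ∈ (nb x).filter (fun y => y ∈ F), TT pm nb j (ind F) y ≤
            ∑ _y ∈ (nb x).filter (fun y => y ∈ F), (1 + pm * D) ^ j := by
          refine Finset.sum_le_sum fun y _ => ?_
          have := TT_le_sup hpm hD0 hD zero_le_one hi1 j y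
          simpa using this
        rw [Finset.sum_const, nsmul_eq_mul] at h2
        have h3 : ((((nb x).filter (fun y => y ∈ F)).card : ℕ) : ℝ) ≤ 1 := by
          exact_mod_cast hF x hx
        nlinarith
      · have h2 : ∑ y ∈ (nb x).filter (fun y => ¬ y ∈ F), TT pm nb j (ind F) y ≤
            ∑ _y ∈ (nb x).filter (fun y => ¬ y ∈ F), j * pm * (1 + pm * D) ^ j :=
          Finset.sum_le_sum fun y hy => ih y (Finset.mem_filter.1 hy).2
        rw [Finset.sum_const, nsmul_eq_mul] at h2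
        have h3 : ((((nb x).filter (fun y => ¬ y ∈ F)).card : ℕ) : ℝ) ≤ D :=
          le_trans (by exact_mod_cast Finset.card_filter_le _ _) (hD x)
        have h4 : 0 ≤ (j:ℝ) * pm * (1 + pm * D) ^ j := by positivity
        exact h2.trans (mul_le_mul_of_nonneg_right h3 h4)
    have h5 := ih x hx
    have h6 := mul_le_mul_of_nonneg_left h1 hpm
    have h7 : pm * (1 + pm * D) ^ j ≤ pm * (1 + pm * D) ^ (j + 1) := by
      refine mul_le_mul_of_nonneg_left ?_ hpm
      exact pow_le_pow_right₀ (by nlinarith [mul_nonneg hpm hD0]) (Nat.le_succ j)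
    calc TT pm nb j (ind F) x + pm * ∑ y ∈ nb x, TT pm nb j (ind F) y
        ≤ j * pm * (1 + pm * D) ^ j + pm * ((1 + pm * D) ^ j + D * (j * pm * (1 + pm * D) ^ j)) :=
          add_le_add h5 h6
      _ = j * pm * (1 + pm * D) ^ (j + 1) + pm * (1 + pm * D) ^ j := by ring
      _ ≤ j * pm * (1 + pm * D) ^ (j + 1) + pm * (1 + pm * D) ^ (j + 1) := by linarith
      _ = ((j + 1 : ℕ) : ℝ) * pm * (1 + pm * D) ^ (j + 1) := by push_cast; ring

/-- (1.4) -/
theorem sum_fib_TT_le (hpm : 0 ≤ pm) (hsym : ∀ x y, y ∈ nb x ↔ x ∈ nb y) {D : ℝ} (hD0 : 0 ≤ D)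
    (hD : ∀ x, ((nb x).card : ℝ) ≤ D)
    {F : Finset X} (hF : ∀ x, x ∉ F → ((nb x).filter (fun y => y ∈ F)).card ≤ 1)
    {w : X → ℝ} (hw : ∀ x, 0 ≤ w x) (j : ℕ) :
    ∑ x ∈ F, TT pm nb j w x ≤ (1 + pm * D) ^ j * (∑ x ∈ F, w x + j * pm * ∑ x, w x) := by
  induction j with
  | zero => simp
  | succ j ih =>
    have h0 := TT_nonneg (nb := nb) hpm hw j
    have hS := sum_TT_le hpm hsym hD hw j
    have hsw : ∑ x ∈ F, ∑ y ∈ nb x, TT pm nb j w y =
        ∑ y, (((nb y).filter (fun x => x ∈ F)).card : ℝ) * TT pm nb j w y := by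
      have h1 : ∀ x, ∑ y ∈ nb x, TT pm nb j w y = ∑ y, if y ∈ nb x then TT pm nb j w y else 0 := by
        intro x
        rw [← Finset.sum_filter]
        congr 1
        ext y
        simp
      simp only [h1]
      rw [Finset.sum_comm]
      refine Finset.sum_congr rfl fun y _ => ?_
      rw [← Finset.sum_filter, Finset.sum_const, nsmul_eq_mul]
      congr 2
      congr 1
      ext x
      simp only [Finset.mem_filter]
      rw [hsym x y]
      tauto
    have h2 : ∑ y, (((nb y).filter (fun x => x ∈ F)).card : ℝ) * TT pm nb j w y ≤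
        D * ∑ y ∈ F, TT pm nb j w y + ∑ y, TT pm nb j w y := by
      have h3 : ∀ y, (((nb y).filter (fun x => x ∈ F)).card : ℝ) * TT pm nb j w y ≤
          (if y ∈ F then D * TT pm nb j w y else 0) + TT pm nb j w y := by
        intro y
        by_cases hy : y ∈ F
        · rw [if_pos hy]
          have h4 : ((((nb y).filter (fun x => x ∈ F)).card : ℕ) : ℝ) ≤ D :=
            le_trans (by exact_mod_cast Finset.card_filter_le _ _) (hD y)
          nlinarith [h0 y, mul_le_mul_of_nonneg_right h4 (h0 y)]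
        · rw [if_neg hy]
          have h4 : ((((nb y).filter (fun x => x ∈ F)).card : ℕ) : ℝ) ≤ 1 := by
            exact_mod_cast hF y hy
          nlinarith [h0 y, mul_le_mul_of_nonneg_right h4 (h0 y)]
      refine (Finset.sum_le_sum fun y _ => h3 y).trans (le_of_eq ?_)
      rw [Finset.sum_add_distrib, ← Finset.sum_filter, Finset.mul_sum]
      congr 1
      refine Finset.sum_congr ?_ fun _ _ => rfl
      ext y
      simp
    have h5 : ∑ x ∈ F, TT pm nb (j + 1) w x =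
        ∑ x ∈ F, TT pm nb j w x + pm * ∑ x ∈ F, ∑ y ∈ nb x, TT pm nb j w y := by
      rw [Finset.mul_sum, ← Finset.sum_add_distrib]
      refine Finset.sum_congr rfl fun x _ => ?_
      rw [TT_succ]; rfl
    have hP : (1:ℝ) ≤ 1 + pm * D := by nlinarith [mul_nonneg hpm hD0]
    have hW : 0 ≤ ∑ x, w x := Finset.sum_nonneg fun x _ => hw x
    have h6 : pm * ∑ x, TT pm nb j w x ≤ pm * ((1 + pm * D) ^ (j + 1) * ∑ x, w x) := by
      refine mul_le_mul_of_nonneg_left (hS.trans ?_) hpm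
      exact mul_le_mul_of_nonneg_right (pow_le_pow_right₀ hP (Nat.le_succ j)) hW
    have h7 := mul_le_mul_of_nonneg_left h2 hpm
    have h8 : (1 + pm * D) * ∑ x ∈ F, TT pm nb j w x ≤
        (1 + pm * D) * ((1 + pm * D) ^ j * (∑ x ∈ F, w x + j * pm * ∑ x, w x)) :=
      mul_le_mul_of_nonneg_left ih (by linarith)
    rw [h5, hsw]
    calc ∑ x ∈ F, TT pm nb j w x +
          pm * ∑ y, (((nb y).filter (fun x => x ∈ F)).card : ℝ) * TT pm nb j w y
        ≤ ∑ x ∈ F, TT pm nb j w x +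
          pm * (D * ∑ y ∈ F, TT pm nb j w y + ∑ y, TT pm nb j w y) := by linarith
      _ = (1 + pm * D) * ∑ x ∈ F, TT pm nb j w x + pm * ∑ y, TT pm nb j w y := by ring
      _ ≤ (1 + pm * D) * ((1 + pm * D) ^ j * (∑ x ∈ F, w x + j * pm * ∑ x, w x)) +
          pm * ((1 + pm * D) ^ (j + 1) * ∑ x, w x) := add_le_add h8 h6
      _ = (1 + pm * D) ^ (j + 1) * (∑ x ∈ F, w x + ((j + 1 : ℕ) : ℝ) * pm * ∑ x, w x) := by
          push_cast; ring

end Pool.Agent.Vu
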