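import Mathlib

/-!
# A product Bernoulli space on a finite index set

`wt p ω = ∏ i, if ω i then p i else 1 - p i`, `Ex p F = ∑ ω, wt p ω * F ω`, `Pr p A`.
Basic laws, the swap lemma for pairs of independent copies, independence of functions of disjoint
sets of coordinates, conditional averages `Av p S F`.
-/

set_option autoImplicit false

namespace Pool.Agent.Vu

open scoped Classical

set_option linter.unusedSectionVars false

variable {I : Type*} [Fintype I]

/-- weight of a point of the product Bernoulli space with parameters `p i` -/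
noncomputable def wt (p : I → ℝ) (ω : I → Bool) : ℝ := ∏ i, if ω i = true then p i else 1 - p i

/-- expectation -/
noncomputable def Ex (p : I → ℝ) (F : (I → Bool) → ℝ) : ℝ := ∑ ω, wt p ω * F ω

/-- probability -/
noncomputable def Pr (p : I → ℝ) (A : (I → Bool) → Prop) : ℝ :=
  Ex p (fun ω => if A ω then 1 else 0)

/-- the parameters are probabilities -/
def IsProb (p : I → ℝ) : Prop := ∀ i, 0 ≤ p i ∧ p i ≤ 1

lemma wt_nonneg {p : I → ℝ} (hp : IsProb p) (ω : I → Bool) : 0 ≤ wt p ω := by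
  unfold wt
  refine Finset.prod_nonneg fun i _ => ?_
  split_ifs
  · exact (hp i).1
  · linarith [(hp i).2]

/-- product formula -/
lemma sum_prod (f : I → Bool → ℝ) :
    ∑ ω : I → Bool, ∏ i, f i (ω i) = ∏ i, (f i true + f i false) := by
  have h := (Finset.prod_univ_sum (fun _ : I => (Finset.univ : Finset Bool)) f).symm
  rw [Fintype.piFinset_univ] at h
  rw [h]
  refine Finset.prod_congr rfl fun i _ => ?_
  simp

lemma Ex_prod (p : I → ℝ) (g : I → Bool → ℝ) :
    Ex p (fun ω => ∏ i, g i (ω i)) = ∏ i, (p i * g i true + (1 - p i) * g i false) := by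
  unfold Ex wt
  have h := sum_prod (fun i b => (if b = true then p i else 1 - p i) * g i b)
  simp only [if_true, Bool.false_eq_true, if_false] at h
  rw [← h]
  refine Finset.sum_congr rfl fun ω _ => ?_
  rw [Finset.prod_mul_distrib]

lemma sum_wt (p : I → ℝ) : ∑ ω, wt p ω = 1 := by
  have h := Ex_prod p (fun _ _ => 1)
  unfold Ex at h
  simpa using h

lemma Ex_const (p : I → ℝ) (c : ℝ) : Ex p (fun _ => c) = c := by
  unfold Ex
  rw [← Finset.sum_mul, sum_wt, one_mul]

lemma Ex_add (p : I → ℝ) (F G : (I → Bool) → ℝ) :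
    Ex p (fun ω => F ω + G ω) = Ex p F + Ex p G := by
  unfold Ex
  rw [← Finset.sum_add_distrib]
  exact Finset.sum_congr rfl fun ω _ => by ring

lemma Ex_sub (p : I → ℝ) (F G : (I → Bool) → ℝ) :
    Ex p (fun ω => F ω - G ω) = Ex p F - Ex p G := by
  unfold Ex
  rw [← Finset.sum_sub_distrib]
  exact Finset.sum_congr rfl fun ω _ => by ring

lemma Ex_neg (p : I → ℝ) (F : (I → Bool) → ℝ) : Ex p (fun ω => - F ω) = - Ex p F := by
  unfold Ex
  rw [← Finset.sum_neg_distrib]
  exact Finset.sum_congr rfl fun ω _ => by ring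

lemma Ex_mul_left (p : I → ℝ) (c : ℝ) (F : (I → Bool) → ℝ) :
    Ex p (fun ω => c * F ω) = c * Ex p F := by
  unfold Ex
  rw [Finset.mul_sum]
  exact Finset.sum_congr rfl fun ω _ => by ring

lemma Ex_mul_right (p : I → ℝ) (c : ℝ) (F : (I → Bool) → ℝ) :
    Ex p (fun ω => F ω * c) = Ex p F * c := by
  unfold Ex
  rw [Finset.sum_mul]
  exact Finset.sum_congr rfl fun ω _ => by ring

lemma Ex_sum {J : Type*} (p : I → ℝ) (s : Finset J) (F : J → (I → Bool) → ℝ) :
    Ex p (fun ω => ∑ j ∈ s, F j ω) = ∑ j ∈ s, Ex p (F j) := by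
  unfold Ex
  rw [Finset.sum_comm]
  refine Finset.sum_congr rfl fun ω _ => ?_
  rw [Finset.mul_sum]

lemma Ex_congr {p : I → ℝ} {F G : (I → Bool) → ℝ} (h : ∀ ω, F ω = G ω) : Ex p F = Ex p G := by
  unfold Ex
  exact Finset.sum_congr rfl fun ω _ => by rw [h]

lemma Ex_mono {p : I → ℝ} (hp : IsProb p) {F G : (I → Bool) → ℝ} (h : ∀ ω, F ω ≤ G ω) :
    Ex p F ≤ Ex p G := by
  unfold Ex
  exact Finset.sum_le_sum fun ω _ => mul_le_mul_of_nonneg_left (h ω) (wt_nonneg hp ω)

lemma Ex_nonneg {p : I → ℝ} (hp : IsProb p) {F : (I → Bool) → ℝ} (h : ∀ ω, 0 ≤ F ω) :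
    0 ≤ Ex p F := by
  unfold Ex
  exact Finset.sum_nonneg fun ω _ => mul_nonneg (wt_nonneg hp ω) (h ω)

lemma Ex_le {p : I → ℝ} (hp : IsProb p) {F : (I → Bool) → ℝ} {c : ℝ} (h : ∀ ω, F ω ≤ c) :
    Ex p F ≤ c := by
  have := Ex_mono hp (G := fun _ => c) h
  rwa [Ex_const] at this

lemma le_Ex {p : I → ℝ} (hp : IsProb p) {F : (I → Bool) → ℝ} {c : ℝ} (h : ∀ ω, c ≤ F ω) :
    c ≤ Ex p F := by
  have := Ex_mono hp (F := fun _ => c) h
  rwa [Ex_const] at this

lemma abs_Ex_le {p : I → ℝ} (hp : IsProb p) (F : (I → Bool) → ℝ) :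
    |Ex p F| ≤ Ex p (fun ω => |F ω|) := by
  unfold Ex
  refine (Finset.abs_sum_le_sum_abs _ _).trans (le_of_eq ?_)
  refine Finset.sum_congr rfl fun ω _ => ?_
  rw [abs_mul, abs_of_nonneg (wt_nonneg hp ω)]

/-- Cauchy–Schwarz -/
lemma Ex_mul_sq_le {p : I → ℝ} (hp : IsProb p) (F G : (I → Bool) → ℝ) :
    (Ex p (fun ω => F ω * G ω)) ^ 2 ≤ Ex p (fun ω => F ω ^ 2) * Ex p (fun ω => G ω ^ 2) := by
  unfold Ex
  have h := Finset.sum_mul_sq_le_sq_mul_sq (Finset.univ : Finset (I → Bool))
    (fun ω => Real.sqrt (wt p ω) * F ω) (fun ω => Real.sqrt (wt p ω) * G ω)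
  have e1 : ∀ ω, Real.sqrt (wt p ω) * F ω * (Real.sqrt (wt p ω) * G ω) = wt p ω * (F ω * G ω) := by
    intro ω
    have := Real.mul_self_sqrt (wt_nonneg hp ω)
    linear_combination (F ω * G ω) * this
  have e2 : ∀ (H : (I → Bool) → ℝ) ω, (Real.sqrt (wt p ω) * H ω) ^ 2 = wt p ω * H ω ^ 2 := by
    intro H ω
    rw [mul_pow, Real.sq_sqrt (wt_nonneg hp ω)]
  simp only [e1, e2] at h
  exact h

/-! ### probabilities -/

lemma Pr_nonneg {p : I → ℝ} (hp : IsProb p) (A : (I → Bool) → Prop) : 0 ≤ Pr p A :=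
  Ex_nonneg hp fun ω => by split_ifs <;> norm_num

lemma Pr_le_one {p : I → ℝ} (hp : IsProb p) (A : (I → Bool) → Prop) : Pr p A ≤ 1 :=
  Ex_le hp fun ω => by split_ifs <;> norm_num

lemma Pr_mono {p : I → ℝ} (hp : IsProb p) {A B : (I → Bool) → Prop} (h : ∀ ω, A ω → B ω) :
    Pr p A ≤ Pr p B := by
  refine Ex_mono hp fun ω => ?_
  by_cases h1 : A ω
  · simp [h1, h ω h1]
  · simp only [h1, if_false]
    split_ifs <;> norm_num

lemma Pr_congr {p : I → ℝ} {A B : (I → Bool) → Prop} (h : ∀ ω, A ω ↔ B ω) : Pr p A = Pr p B := by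
  unfold Pr
  exact Ex_congr fun ω => by simp only [h ω]

lemma Pr_true (p : I → ℝ) : Pr p (fun _ => True) = 1 := by
  unfold Pr
  simp only [if_true]
  exact Ex_const p 1

lemma Pr_or_le {p : I → ℝ} (hp : IsProb p) (A B : (I → Bool) → Prop) :
    Pr p (fun ω => A ω ∨ B ω) ≤ Pr p A + Pr p B := by
  unfold Pr
  rw [← Ex_add]
  refine Ex_mono hp fun ω => ?_
  by_cases h1 : A ω <;> by_cases h2 : B ω <;> simp [h1, h2]

lemma Pr_exists_le {J : Type*} {p : I → ℝ} (hp : IsProb p) (s : Finset J)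
    (A : J → (I → Bool) → Prop) :
    Pr p (fun ω => ∃ j ∈ s, A j ω) ≤ ∑ j ∈ s, Pr p (A j) := by
  unfold Pr
  rw [← Ex_sum]
  refine Ex_mono hp fun ω => ?_
  split_ifs with h
  · obtain ⟨j, hj, hA⟩ := h
    have h1 := Finset.single_le_sum (f := fun j => if A j ω then (1 : ℝ) else 0)
      (fun i _ => by split_ifs <;> norm_num) hj
    simpa only [if_pos hA] using h1
  · exact Finset.sum_nonneg fun i _ => by split_ifs <;> norm_num

lemma Pr_compl (p : I → ℝ) (A : (I → Bool) → Prop) : Pr p (fun ω => ¬ A ω) = 1 - Pr p A := by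
  have h : Pr p (fun ω => ¬ A ω) + Pr p A = 1 := by
    unfold Pr
    rw [← Ex_add]
    refine (Ex_congr (G := fun _ => (1 : ℝ)) fun ω => ?_).trans (Ex_const p 1)
    by_cases h1 : A ω <;> simp [h1]
  linarith

lemma Pr_split (p : I → ℝ) (A B : (I → Bool) → Prop) :
    Pr p A = Pr p (fun ω => A ω ∧ B ω) + Pr p (fun ω => A ω ∧ ¬ B ω) := by
  unfold Pr
  rw [← Ex_add]
  refine Ex_congr fun ω => ?_
  by_cases h1 : A ω <;> by_cases h2 : B ω <;> simp [h1, h2]

/-- Markov's inequality -/
lemma markov {p : I → ℝ} (hp : IsProb p) {F : (I → Bool) → ℝ} (hF : ∀ ω, 0 ≤ F ω) (c : ℝ) :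
    c * Pr p (fun ω => c ≤ F ω) ≤ Ex p F := by
  unfold Pr
  rw [← Ex_mul_left]
  refine Ex_mono hp fun ω => ?_
  split_ifs with h
  · simpa using h
  · simpa using hF ω

/-- exponential Markov inequality -/
lemma exp_markov {p : I → ℝ} (hp : IsProb p) (F : (I → Bool) → ℝ) (c B : ℝ)
    (h : Ex p (fun ω => Real.exp (F ω)) ≤ Real.exp B) :
    Pr p (fun ω => c ≤ F ω) ≤ Real.exp (B - c) := by
  have h1 := markov hp (F := fun ω => Real.exp (F ω)) (fun ω => (Real.exp_pos _).le) (Real.exp c)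
  have h2 : Pr p (fun ω => Real.exp c ≤ Real.exp (F ω)) = Pr p (fun ω => c ≤ F ω) :=
    Pr_congr fun ω => Real.exp_le_exp
  rw [h2] at h1
  rw [Real.exp_sub, le_div_iff₀ (Real.exp_pos _), mul_comm]
  exact h1.trans h

/-! ### mixing two configurations -/

/-- `ω` on `S`, `ω'` off `S` -/
noncomputable def mix (S : Set I) (ω ω' : I → Bool) : I → Bool := fun i => if i ∈ S then ω i else ω' i

lemma mix_of_mem {S : Set I} {i : I} (h : i ∈ S) (ω ω' : I → Bool) : mix S ω ω' i = ω i := by
  simp [mix, h]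

lemma mix_of_notMem {S : Set I} {i : I} (h : i ∉ S) (ω ω' : I → Bool) : mix S ω ω' i = ω' i := by
  simp [mix, h]

lemma wt_mix (p : I → ℝ) (S : Set I) (ω ω' : I → Bool) :
    wt p (mix S ω ω') * wt p (mix S ω' ω) = wt p ω * wt p ω' := by
  unfold wt
  rw [← Finset.prod_mul_distrib, ← Finset.prod_mul_distrib]
  refine Finset.prod_congr rfl fun i _ => ?_
  by_cases h : i ∈ S
  · rw [mix_of_mem h, mix_of_mem h]
  · rw [mix_of_notMem h, mix_of_notMem h, mul_comm]

/-- expectation over two independent copies -/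
noncomputable def Ex2 (p : I → ℝ) (F : (I → Bool) → (I → Bool) → ℝ) : ℝ :=
  ∑ ω, ∑ ω', wt p ω * wt p ω' * F ω ω'

lemma Ex2_eq (p : I → ℝ) (F : (I → Bool) → (I → Bool) → ℝ) :
    Ex2 p F = Ex p (fun ω => Ex p (fun ω' => F ω ω')) := by
  unfold Ex2 Ex
  refine Finset.sum_congr rfl fun ω _ => ?_
  rw [Finset.mul_sum]
  exact Finset.sum_congr rfl fun ω' _ => by ring

lemma Ex2_mul (p : I → ℝ) (F G : (I → Bool) → ℝ) :
    Ex2 p (fun ω ω' => F ω * G ω') = Ex p F * Ex p G := by
  rw [Ex2_eq]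
  have h : ∀ ω, Ex p (fun ω' => F ω * G ω') = F ω * Ex p G := fun ω => Ex_mul_left p (F ω) G
  simp only [h]
  exact Ex_mul_right p _ F

lemma Ex2_mono {p : I → ℝ} (hp : IsProb p) {F G : (I → Bool) → (I → Bool) → ℝ}
    (h : ∀ ω ω', F ω ω' ≤ G ω ω') : Ex2 p F ≤ Ex2 p G := by
  unfold Ex2
  refine Finset.sum_le_sum fun ω _ => Finset.sum_le_sum fun ω' _ => ?_
  exact mul_le_mul_of_nonneg_left (h ω ω') (mul_nonneg (wt_nonneg hp ω) (wt_nonneg hp ω'))

/-- The swap lemma: exchanging two independent copies off a set `S ω` which is determined by the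
coordinates in it preserves the product weight. -/
theorem Ex2_swap (p : I → ℝ) (S : (I → Bool) → Set I)
    (hS : ∀ ω ω', S (mix (S ω) ω ω') = S ω) (F : (I → Bool) → (I → Bool) → ℝ) :
    Ex2 p (fun ω ω' => F (mix (S ω) ω ω') (mix (S ω) ω' ω)) = Ex2 p F := by
  unfold Ex2
  rw [← Finset.sum_product', ← Finset.sum_product']
  have hmix : ∀ (A : Set I) (ω ω' : I → Bool), mix A (mix A ω ω') (mix A ω' ω) = ω := by
    intro A ω ω'
    funext i
    by_cases h : i ∈ A
    · rw [mix_of_mem h, mix_of_mem h]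
    · rw [mix_of_notMem h, mix_of_notMem h]
  have hinv : Function.Involutive (fun x : (I → Bool) × (I → Bool) =>
      (mix (S x.1) x.1 x.2, mix (S x.1) x.2 x.1)) := by
    rintro ⟨ω, ω'⟩
    simp only [hS, hmix]
  let e : (I → Bool) × (I → Bool) ≃ (I → Bool) × (I → Bool) := hinv.toPerm
  simp only [Finset.univ_product_univ]
  rw [← Equiv.sum_comp e (fun x : (I → Bool) × (I → Bool) => wt p x.1 * wt p x.2 * F x.1 x.2)]
  refine Finset.sum_congr rfl fun x _ => ?_
  change wt p x.1 * wt p x.2 * F (mix (S x.1) x.1 x.2) (mix (S x.1) x.2 x.1) =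
    wt p (mix (S x.1) x.1 x.2) * wt p (mix (S x.1) x.2 x.1) * F (mix (S x.1) x.1 x.2)
      (mix (S x.1) x.2 x.1)
  rw [wt_mix]

/-- `F` depends only on the coordinates in `S` -/
def Dep (S : Set I) {β : Type*} (F : (I → Bool) → β) : Prop :=
  ∀ ω ω' : I → Bool, (∀ i ∈ S, ω i = ω' i) → F ω = F ω'

lemma Dep.mono {S T : Set I} (h : S ⊆ T) {β : Type*} {F : (I → Bool) → β} (hF : Dep S F) :
    Dep T F := fun ω ω' hω => hF ω ω' fun i hi => hω i (h hi)

lemma Dep.comp {S : Set I} {β γ : Type*} {F : (I → Bool) → β} (hF : Dep S F) (g : β → γ) :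
    Dep S (fun ω => g (F ω)) := fun ω ω' hω => congrArg g (hF ω ω' hω)

/-- independence of functions of disjoint sets of coordinates -/
theorem Ex_mul_of_dep (p : I → ℝ) {S T : Set I} (hST : Disjoint S T) {F G : (I → Bool) → ℝ}
    (hF : Dep S F) (hG : Dep T G) : Ex p (fun ω => F ω * G ω) = Ex p F * Ex p G := by
  rw [← Ex2_mul]
  have h := Ex2_swap p (fun _ => S) (fun _ _ => rfl) (fun ω _ => F ω * G ω)
  have h1 : Ex2 p (fun ω _ => F ω * G ω) = Ex p (fun ω => F ω * G ω) := by
    rw [Ex2_eq]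
    exact Ex_congr fun ω => Ex_const p _
  rw [← h1, ← h]
  unfold Ex2
  refine Finset.sum_congr rfl fun ω _ => Finset.sum_congr rfl fun ω' _ => ?_
  have e1 : F (mix S ω ω') = F ω := hF _ _ fun i hi => mix_of_mem hi _ _
  have e2 : G (mix S ω ω') = G ω' := hG _ _ fun i hi =>
    mix_of_notMem (fun h => Set.disjoint_left.1 hST h hi) _ _
  simp only [e1, e2]

theorem Pr_and_of_dep (p : I → ℝ) {S T : Set I} (hST : Disjoint S T) {A B : (I → Bool) → Prop}
    (hA : Dep S A) (hB : Dep T B) : Pr p (fun ω => A ω ∧ B ω) = Pr p A * Pr p B := by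
  unfold Pr
  rw [← Ex_mul_of_dep p hST (F := fun ω => if A ω then (1 : ℝ) else 0)
    (G := fun ω => if B ω then (1 : ℝ) else 0)]
  · refine Ex_congr fun ω => ?_
    by_cases h1 : A ω <;> by_cases h2 : B ω <;> simp [h1, h2]
  · intro ω ω' h
    simp only [hA ω ω' h]
  · intro ω ω' h
    simp only [hB ω ω' h]

lemma dep_coin (i : I) : Dep {i} (fun ω : I → Bool => ω i = true) := by
  intro ω ω' h
  simp only [h i rfl]

/-- probability of a single coin -/
lemma Pr_coin (p : I → ℝ) (i : I) : Pr p (fun ω => ω i = true) = p i := by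
  have h := Ex_prod p (fun j b => if j = i then (if b = true then 1 else 0) else 1)
  have h1 : (∏ j, (p j * (if j = i then (if true = true then (1:ℝ) else 0) else 1) +
      (1 - p j) * (if j = i then (if false = true then (1:ℝ) else 0) else 1))) = p i := by
    rw [Finset.prod_eq_single i]
    · simp
    · intro j _ hj
      simp [hj]
    · intro hi
      exact absurd (Finset.mem_univ i) hi
  rw [h1] at h
  rw [← h]
  unfold Pr
  refine Ex_congr fun ω => ?_
  rw [Finset.prod_eq_single i]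
  · simp
  · intro j _ hj
    simp [hj]
  · intro hi
    exact absurd (Finset.mem_univ i) hi

/-- a coin is independent of everything that does not depend on it -/
theorem Pr_coin_and (p : I → ℝ) (i : I) {S : Set I} (hi : i ∉ S) {A : (I → Bool) → Prop}
    (hA : Dep S A) : Pr p (fun ω => ω i = true ∧ A ω) = p i * Pr p A := by
  rw [Pr_and_of_dep p (S := {i}) (T := S) (by simpa using hi) (dep_coin i) hA, Pr_coin]

theorem Ex_coin_mul (p : I → ℝ) (i : I) {S : Set I} (hi : i ∉ S) {F : (I → Bool) → ℝ}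
    (hF : Dep S F) : Ex p (fun ω => (if ω i = true then 1 else 0) * F ω) = p i * Ex p F := by
  rw [Ex_mul_of_dep p (S := {i}) (T := S) (by simpa using hi) _ hF]
  · congr 1
    have h := Pr_coin p i
    unfold Pr at h
    rw [← h]
    exact Ex_congr fun ω => by congr
  · intro ω ω' h
    simp only [h i rfl]

/-! ### conditional averages -/

/-- average over the coordinates outside `S` -/
noncomputable def Av (p : I → ℝ) (S : Set I) (F : (I → Bool) → ℝ) : (I → Bool) → ℝ :=
  fun ω => Ex p (fun ω' => F (mix S ω ω'))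

lemma dep_Av (p : I → ℝ) (S : Set I) (F : (I → Bool) → ℝ) : Dep S (Av p S F) := by
  intro ω ω' h
  unfold Av
  refine Ex_congr fun ω'' => ?_
  congr 1
  funext i
  by_cases hi : i ∈ S
  · rw [mix_of_mem hi, mix_of_mem hi, h i hi]
  · rw [mix_of_notMem hi, mix_of_notMem hi]

lemma Av_univ (p : I → ℝ) (F : (I → Bool) → ℝ) : Av p Set.univ F = F := by
  funext ω
  unfold Av
  have h : ∀ ω', mix Set.univ ω ω' = ω := fun ω' => by
    funext i
    exact mix_of_mem (Set.mem_univ i) _ _
  simp only [h]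
  exact Ex_const p _

lemma Av_empty (p : I → ℝ) (F : (I → Bool) → ℝ) (ω : I → Bool) : Av p ∅ F ω = Ex p F := by
  unfold Av
  refine Ex_congr fun ω' => ?_
  congr 1
  funext i
  exact mix_of_notMem (by simp) _ _

/-- total expectation: `E[H * F] = E[H * Av S F]` for `H` depending on `S` -/
lemma Ex_mul_Av (p : I → ℝ) (S : Set I) (F : (I → Bool) → ℝ) {H : (I → Bool) → ℝ}
    (hH : Dep S H) : Ex p (fun ω => H ω * Av p S F ω) = Ex p (fun ω => H ω * F ω) := by
  have h := Ex2_swap p (fun _ => S) (fun _ _ => rfl) (fun ω _ => H ω * F ω)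
  have h1 : Ex2 p (fun ω _ => H ω * F ω) = Ex p (fun ω => H ω * F ω) := by
    rw [Ex2_eq]
    exact Ex_congr fun ω => Ex_const p _
  rw [← h1, ← h, Ex2_eq]
  refine Ex_congr fun ω => ?_
  unfold Av
  rw [← Ex_mul_left]
  refine Ex_congr fun ω' => ?_
  have e1 : H (mix S ω ω') = H ω := hH _ _ fun i hi => mix_of_mem hi _ _
  rw [e1]

lemma Ex_Av (p : I → ℝ) (S : Set I) (F : (I → Bool) → ℝ) : Ex p (Av p S F) = Ex p F := by
  have h := Ex_mul_Av p S F (H := fun _ => 1) (fun _ _ _ => rfl)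
  simpa using h

/-- one more coordinate: `Av S F` is the average of `Av (insert i S) F` over coordinate `i` -/
lemma Av_insert (p : I → ℝ) (S : Set I) {i : I} (hi : i ∉ S) (F : (I → Bool) → ℝ)
    (ω : I → Bool) :
    Av p S F ω = p i * Av p (insert i S) F (Function.update ω i true) +
      (1 - p i) * Av p (insert i S) F (Function.update ω i false) := by
  have hu : ∀ (b : Bool) (ω' : I → Bool), mix (insert i S) (Function.update ω i b) ω' =
      Function.update (mix S ω ω') i b := by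
    intro b ω'
    funext j
    by_cases hj : j = i
    · subst hj
      rw [mix_of_mem (Set.mem_insert _ _)]
      simp
    · rw [Function.update_of_ne hj]
      by_cases hS : j ∈ S
      · rw [mix_of_mem (Set.mem_insert_of_mem _ hS), mix_of_mem hS, Function.update_of_ne hj]
      · rw [mix_of_notMem (by simp [hj, hS]), mix_of_notMem hS]
  unfold Av
  simp only [hu]
  -- split the expectation according to coordinate `i`
  have hsplit : ∀ ω', F (mix S ω ω') =
      (if ω' i = true then 1 else 0) * F (Function.update (mix S ω ω') i true) +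
      (1 - (if ω' i = true then 1 else 0)) * F (Function.update (mix S ω ω') i false) := by
    intro ω'
    have hmi : mix S ω ω' i = ω' i := mix_of_notMem hi _ _
    by_cases hb : ω' i = true
    · have : Function.update (mix S ω ω') i true = mix S ω ω' := by
        rw [← hb, ← hmi, Function.update_eq_self]
      rw [this]; simp [hb]
    · have hb' : ω' i = false := by simpa using hb
      have : Function.update (mix S ω ω') i false = mix S ω ω' := by
        rw [← hb', ← hmi, Function.update_eq_self]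
      rw [this]; simp [hb']
  have hdep : ∀ b : Bool, Dep ({i}ᶜ : Set I) (fun ω' => F (Function.update (mix S ω ω') i b)) := by
    intro b ω1 ω2 h
    have : Function.update (mix S ω ω1) i b = Function.update (mix S ω ω2) i b := by
      funext j
      by_cases hj : j = i
      · subst hj; simp
      · rw [Function.update_of_ne hj, Function.update_of_ne hj]
        by_cases hS : j ∈ S
        · rw [mix_of_mem hS, mix_of_mem hS]
        · rw [mix_of_notMem hS, mix_of_notMem hS]
          exact h j hj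
    simp only [this]
  rw [Ex_congr hsplit, Ex_add]
  have h1 := Ex_coin_mul p i (S := ({i}ᶜ : Set I)) (by simp) (hdep true)
  have h2 := Ex_coin_mul p i (S := ({i}ᶜ : Set I)) (by simp) (hdep false)
  rw [h1]
  congr 1
  have h3 : Ex p (fun ω' => (1 - (if ω' i = true then 1 else 0)) *
      F (Function.update (mix S ω ω') i false)) =
      Ex p (fun ω' => F (Function.update (mix S ω ω') i false)) -
      Ex p (fun ω' => (if ω' i = true then 1 else 0) *
        F (Function.update (mix S ω ω') i false)) := by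
    rw [← Ex_sub]
    exact Ex_congr fun ω' => by ring
  rw [h3, h2]
  ring

end Pool.Agent.Vu
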