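import Mathlib

/-!
# The symmetric local lemma for a finite weighted space

`lll`: if every bad event `A v` satisfies `Pr (A v ∩ avoid W) ≤ q * Pr (avoid W)` for all `W` outside
`insert v (Γ v)`, `|Γ v| ≤ d`, `4 q d ≤ 1` and `4 q ≤ 1`, then some point of positive weight avoids
all the events.
-/

set_option autoImplicit false

namespace Pool.Agent.Vu.LLL

open scoped Classical

variable {Ω V : Type*} [Fintype Ω]

/-- weight of a set of points -/
noncomputable def ms (w : Ω → ℝ) (A : Set Ω) : ℝ := ∑ ω, if ω ∈ A then w ω else 0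

/-- the points avoiding all `A v`, `v ∈ W` -/
def avoid (A : V → Set Ω) (W : Finset V) : Set Ω := {ω | ∀ v ∈ W, ω ∉ A v}

lemma ms_nonneg {w : Ω → ℝ} (hw : ∀ ω, 0 ≤ w ω) (A : Set Ω) : 0 ≤ ms w A := by
  unfold ms
  refine Finset.sum_nonneg fun ω _ => ?_
  split_ifs
  · exact hw ω
  · exact le_rfl

lemma ms_mono {w : Ω → ℝ} (hw : ∀ ω, 0 ≤ w ω) {A B : Set Ω} (h : A ⊆ B) : ms w A ≤ ms w B := by
  unfold ms
  refine Finset.sum_le_sum fun ω _ => ?_
  split_ifs with h1 h2 h2
  · exact le_rfl
  · exact absurd (h h1) h2
  · exact hw ω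
  · exact le_rfl

lemma ms_union_le {w : Ω → ℝ} (hw : ∀ ω, 0 ≤ w ω) (A B : Set Ω) :
    ms w (A ∪ B) ≤ ms w A + ms w B := by
  unfold ms
  rw [← Finset.sum_add_distrib]
  refine Finset.sum_le_sum fun ω _ => ?_
  have := hw ω
  by_cases h1 : ω ∈ A <;> by_cases h2 : ω ∈ B <;> simp [h1, h2, this]

lemma ms_biUnion_le {w : Ω → ℝ} (hw : ∀ ω, 0 ≤ w ω) (A : V → Set Ω) (B : Set Ω) (W : Finset V) :
    ms w {ω | (∃ v ∈ W, ω ∈ A v) ∧ ω ∈ B} ≤ ∑ v ∈ W, ms w (A v ∩ B) := by
  induction W using Finset.induction_on with
  | empty => simp [ms]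
  | insert v W hv ih =>
    rw [Finset.sum_insert hv]
    refine le_trans (le_trans (ms_mono hw ?_) (ms_union_le hw (A v ∩ B) _)) (add_le_add le_rfl ih)
    rintro ω ⟨⟨u, hu, hA⟩, hB⟩
    rcases Finset.mem_insert.1 hu with rfl | hu
    · exact Or.inl ⟨hA, hB⟩
    · exact Or.inr ⟨⟨u, hu, hA⟩, hB⟩

/-- The symmetric local lemma. -/
theorem lll [Fintype V] {w : Ω → ℝ} (hw : ∀ ω, 0 ≤ w ω) (hpos : 0 < ∑ ω, w ω)
    (A : V → Set Ω) (Γ : V → Finset V) {d : ℕ} (hd : ∀ v, (Γ v).card ≤ d) {q : ℝ} (hq0 : 0 ≤ q)
    (hq : 4 * q * d ≤ 1) (hq1 : 4 * q ≤ 1)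
    (hind : ∀ (v : V) (W : Finset V), v ∉ W → Disjoint W (Γ v) →
      ms w (A v ∩ avoid A W) ≤ q * ms w (avoid A W)) :
    ∃ ω, 0 < w ω ∧ ∀ v, ω ∉ A v := by
  have key : ∀ (n : ℕ) (W : Finset V), W.card ≤ n → 0 < ms w (avoid A W) ∧
      ∀ v, v ∉ W → ms w (A v ∩ avoid A W) ≤ 2 * q * ms w (avoid A W) := by
    intro n
    induction n with
    | zero =>
      intro W hW
      have hW0 : W = ∅ := Finset.card_eq_zero.1 (Nat.le_zero.1 hW)
      subst hW0
      have h1 : ms w (avoid A ∅) = ∑ ω, w ω := by
        unfold ms avoid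
        simp
      refine ⟨by rw [h1]; exact hpos, fun v _ => ?_⟩
      have := hind v ∅ (by simp) (by simp)
      have h0 : 0 ≤ ms w (avoid A ∅) := ms_nonneg hw _
      nlinarith
    | succ n ih =>
      intro W hW
      -- the conditional bound
      have hcond : 0 < ms w (avoid A W) → ∀ v, v ∉ W →
          ms w (A v ∩ avoid A W) ≤ 2 * q * ms w (avoid A W) := by
        intro hWpos v hv
        set W1 := W.filter (fun u => u ∈ Γ v) with hW1
        set W2 := W.filter (fun u => u ∉ Γ v) with hW2
        have hv2 : v ∉ W2 := fun h => hv (Finset.mem_filter.1 h).1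
        have hdis : Disjoint W2 (Γ v) := by
          rw [Finset.disjoint_left]
          intro u hu
          exact (Finset.mem_filter.1 hu).2
        have h1 := hind v W2 hv2 hdis
        have hsub : avoid A W ⊆ avoid A W2 := fun ω hω u hu => hω u (Finset.mem_filter.1 hu).1
        have h2 : ms w (A v ∩ avoid A W) ≤ ms w (A v ∩ avoid A W2) :=
          ms_mono hw (Set.inter_subset_inter_right _ hsub)
        rcases Finset.eq_empty_or_nonempty W1 with hE | hE
        · have hW2' : W2 = W := by
            rw [hW2, Finset.filter_eq_self]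
            intro u hu hg
            have : u ∈ W1 := Finset.mem_filter.2 ⟨hu, hg⟩
            rw [hE] at this
            simp at this
          rw [hW2'] at h1
          nlinarith
        · have hcard : W2.card ≤ n := by
            have hlt : W2.card < W.card := by
              refine Finset.card_lt_card ?_
              rw [Finset.ssubset_iff_of_subset (Finset.filter_subset _ _)]
              obtain ⟨u, hu⟩ := hE
              have hu' := Finset.mem_filter.1 hu
              exact ⟨u, hu'.1, fun h => (Finset.mem_filter.1 h).2 hu'.2⟩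
            omega
          obtain ⟨hp2, hc2⟩ := ih W2 hcard
          have hsplit : ms w (avoid A W2) ≤ ms w (avoid A W) + ∑ u ∈ W1, ms w (A u ∩ avoid A W2) := by
            refine le_trans (le_trans (ms_mono hw ?_) (ms_union_le hw (avoid A W) _))
              (add_le_add le_rfl (ms_biUnion_le hw A (avoid A W2) W1))
            intro ω hω
            by_cases hb : ∃ u ∈ W1, ω ∈ A u
            · exact Or.inr ⟨hb, hω⟩
            · left
              intro u hu hA
              by_cases hg : u ∈ Γ v
              · exact hb ⟨u, Finset.mem_filter.2 ⟨hu, hg⟩, hA⟩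
              · exact hω u (Finset.mem_filter.2 ⟨hu, hg⟩) hA
          have hsum : ∑ u ∈ W1, ms w (A u ∩ avoid A W2) ≤ d * (2 * q * ms w (avoid A W2)) := by
            have h3 : ∑ u ∈ W1, ms w (A u ∩ avoid A W2)
                ≤ ∑ _u ∈ W1, 2 * q * ms w (avoid A W2) := by
              refine Finset.sum_le_sum fun u hu => hc2 u ?_
              intro h
              exact (Finset.mem_filter.1 h).2 (Finset.mem_filter.1 hu).2
            have h4 : (W1.card : ℝ) ≤ d := by
              have : W1.card ≤ (Γ v).card := by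
                refine Finset.card_le_card fun u hu => (Finset.mem_filter.1 hu).2
              exact_mod_cast this.trans (hd v)
            rw [Finset.sum_const, nsmul_eq_mul] at h3
            have h5 : 0 ≤ 2 * q * ms w (avoid A W2) := by positivity
            nlinarith
          nlinarith [mul_nonneg hq0 hp2.le, mul_le_mul_of_nonneg_right hq hp2.le]
      -- positivity
      have hpos' : 0 < ms w (avoid A W) := by
        rcases Nat.lt_or_ge W.card (n + 1) with hlt | hge
        · exact (ih W (by omega)).1
        · have hne : W.Nonempty := by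
            rw [← Finset.card_pos]; omega
          obtain ⟨u, hu⟩ := hne
          have hcard : (W.erase u).card ≤ n := by
            rw [Finset.card_erase_of_mem hu]; omega
          obtain ⟨hp, hc⟩ := ih (W.erase u) hcard
          have h1 := hc u (Finset.notMem_erase u W)
          have h2 : ms w (avoid A (W.erase u)) ≤ ms w (A u ∩ avoid A (W.erase u)) + ms w (avoid A W) := by
            refine le_trans (ms_mono hw ?_) (ms_union_le hw _ _)
            intro ω hω
            by_cases hA : ω ∈ A u
            · exact Or.inl ⟨hA, hω⟩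
            · right
              intro x hx hA'
              by_cases hxu : x = u
              · subst hxu; exact hA hA'
              · exact hω x (Finset.mem_erase.2 ⟨hxu, hx⟩) hA'
          nlinarith
      exact ⟨hpos', hcond hpos'⟩
  obtain ⟨h1, -⟩ := key (Finset.univ : Finset V).card Finset.univ le_rfl
  unfold ms at h1
  obtain ⟨ω, -, hω⟩ := Finset.exists_lt_of_sum_lt (s := Finset.univ) (f := fun _ : Ω => (0 : ℝ))
    (g := fun ω => if ω ∈ avoid A Finset.univ then w ω else 0) (by simpa using h1)
  by_cases hm : ω ∈ avoid A Finset.univ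
  · rw [if_pos hm] at hω
    exact ⟨ω, hω, fun v => hm v (Finset.mem_univ v)⟩
  · rw [if_neg hm] at hω
    exact absurd hω (lt_irrefl _)

end Pool.Agent.Vu.LLL
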